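import Mathlib

set_option autoImplicit false

open Finset

namespace Pool.Agent.H53.QA

/-- strongly `q`-additive functions -/
def SA {G : Type*} [AddCommGroup G] (q : ℕ) (f : ℕ → G) : Prop :=
  ∀ n d, d < q → f (q * n + d) = f n + f d

variable {G : Type*} [AddCommGroup G] {q : ℕ} {f : ℕ → G}

theorem SA.zero (hq : 2 ≤ q) (hf : SA q f) : f 0 = 0 := by
  have h := hf 0 0 (by omega)
  simpa using h

theorem SA.mul (hq : 2 ≤ q) (hf : SA q f) (n : ℕ) : f (q * n) = f n := by
  have h := hf n 0 (by omega)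
  simpa [hf.zero hq] using h

theorem SA.pow_mul (hq : 2 ≤ q) (hf : SA q f) (M n : ℕ) : f (q ^ M * n) = f n := by
  induction M with
  | zero => simp
  | succ M ih => rw [pow_succ', mul_assoc, hf.mul hq, ih]

theorem SA.split (hq : 2 ≤ q) (hf : SA q f) (M : ℕ) :
    ∀ x y, x < q ^ M → f (x + q ^ M * y) = f x + f y := by
  induction M with
  | zero =>
    intro x y hx
    have hx0 : x = 0 := by simpa using hx
    subst hx0
    simp [hf.zero hq]
  | succ M ih =>
    intro x y hx
    have h0 : q * (x / q) + x % q = x := Nat.div_add_mod x q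
    have h1 : x + q ^ (M + 1) * y = q * (x / q + q ^ M * y) + x % q := by
      conv_lhs => rw [← h0]
      ring
    have h2 : x / q < q ^ M := by
      rw [Nat.div_lt_iff_lt_mul (by omega)]
      rwa [pow_succ] at hx
    have h3 : x % q < q := Nat.mod_lt _ (by omega)
    rw [h1, hf _ _ h3, ih _ _ h2]
    conv_rhs => rw [← h0, hf _ _ h3]
    abel

theorem SA.sum (hq : 2 ≤ q) (hf : SA q f) (M n : ℕ) : ∀ a : ℕ → ℕ, (∀ j < n, a j < q ^ M) →
    f (∑ j ∈ range n, a j * (q ^ M) ^ j) = ∑ j ∈ range n, f (a j) := by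
  induction n with
  | zero => simp [hf.zero hq]
  | succ n ih =>
    intro a h
    rw [sum_range_succ', sum_range_succ', ← ih (fun j => a (j + 1)) fun j hj => h _ (by omega),
      add_comm (f _), ← hf.split hq M _ _ (h 0 (by omega)), mul_sum, add_comm]
    simp only [pow_zero, mul_one]
    congr 2
    exact sum_congr rfl fun j _ => by ring

/-- the transfer operator for adding a copy of `b` -/
def T (b : ℕ) (Φ : ℕ → ℕ → G) (c j : ℕ) : G :=
  ∑ l ∈ range (j + 1), Φ (c * j.choose l * b ^ l) (j - l)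

theorem expand (c z b Q j : ℕ) :
    c * (z + Q * b) ^ j = ∑ l ∈ range (j + 1), (c * j.choose l * b ^ l * z ^ (j - l)) * Q ^ l := by
  rw [add_comm, add_pow, mul_sum]
  refine sum_congr rfl fun l _ => ?_
  rw [mul_pow]
  simp only [Nat.cast_id]
  ring

theorem realize (hq : 2 ≤ q) (hf : SA q f) (c z b L j : ℕ)
    (h : ∀ l ≤ j, c * j.choose l * b ^ l * z ^ (j - l) < q ^ L) :
    f (c * (z + q ^ L * b) ^ j) = T b (fun c j => f (c * z ^ j)) c j := by
  rw [expand, hf.sum hq L (j + 1) _ (fun l hl => h l (by omega))]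
  rfl

/-- a function whose increments have a period -/
theorem period_of_incr {e : ℕ} (he : ∀ g : G, e • g = 0) (F D : ℕ → G) (p : ℕ)
    (hF : ∀ r, F (r + 1) = F r + D r) (hD : ∀ r, D (r + p) = D r) (r : ℕ) :
    F (r + e * p) = F r := by
  have h1 : ∀ n r, F (r + n) = F r + ∑ s ∈ range n, D (r + s) := by
    intro n
    induction n with
    | zero => intro r; simp
    | succ n ih =>
      intro r
      rw [← add_assoc, hF, ih, sum_range_succ, add_assoc]
  have h2 : ∀ n r, D (r + n * p) = D r := by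
    intro n
    induction n with
    | zero => intro r; simp
    | succ n ih =>
      intro r
      rw [Nat.succ_mul, ← add_assoc, hD, ih]
  have h3 : ∀ n, F (r + n * p) = F r + n • ∑ s ∈ range p, D (r + s) := by
    intro n
    induction n with
    | zero => simp
    | succ n ih =>
      rw [Nat.succ_mul, ← add_assoc, h1, ih, succ_nsmul, add_assoc]
      congr 2
      refine sum_congr rfl fun s _ => ?_
      rw [show r + n * p + s = (r + s) + n * p by ring, h2]
  rw [h3, he, add_zero]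

theorem T_succ (b : ℕ) (Φ : ℕ → ℕ → G) (c j : ℕ) :
    T b Φ c j = Φ c j + ∑ l ∈ range j, Φ (c * j.choose (l + 1) * b ^ (l + 1)) (j - (l + 1)) := by
  unfold T
  rw [sum_range_succ', add_comm]
  simp

theorem periodic {e : ℕ} (he : ∀ g : G, e • g = 0) (b : ℕ) (Φ : ℕ → ℕ → G) (j : ℕ) :
    ∀ c n r, (T b)^[r + n * e ^ j] Φ c j = (T b)^[r] Φ c j := by
  induction j using Nat.strong_induction_on with
  | _ j ih =>
    have hone : ∀ c r, (T b)^[r + e ^ j] Φ c j = (T b)^[r] Φ c j := by
      intro c r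
      rcases Nat.eq_zero_or_pos j with hj | hj
      · subst hj
        rw [pow_zero]
        show (T b)^[r + 1] Φ c 0 = _
        rw [Function.iterate_succ_apply', T_succ]
        simp
      · obtain ⟨i, rfl⟩ : ∃ i, j = i + 1 := ⟨j - 1, by omega⟩
        rw [pow_succ']
        refine period_of_incr he (fun r => (T b)^[r] Φ c (i + 1))
          (fun r => ∑ l ∈ range (i + 1), (T b)^[r] Φ (c * (i + 1).choose (l + 1) * b ^ (l + 1))
            (i + 1 - (l + 1))) (e ^ i) (fun r => ?_) (fun r => ?_) r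
        · show (T b)^[r + 1] Φ c (i + 1) = _
          rw [Function.iterate_succ_apply', T_succ]
        · refine sum_congr rfl fun l hl => ?_
          have hl' : l < i + 1 := mem_range.mp hl
          have h5 := ih (i + 1 - (l + 1)) (by omega)
            (c * (i + 1).choose (l + 1) * b ^ (l + 1)) (e ^ l) r
          rw [← pow_add, show l + (i + 1 - (l + 1)) = i by omega] at h5
          exact h5
    intro c n
    induction n with
    | zero => intro r; simp
    | succ n ihn =>
      intro r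
      rw [Nat.succ_mul, ← add_assoc, hone, ihn]

/-- a defect in degree `J` stays unchanged -/
theorem T_defect (b J : ℕ) (Φ Δ : ℕ → ℕ → G) (hΔ : ∀ c, ∀ j < J, Δ c j = 0) (n : ℕ) :
    ∀ c, ∀ j ≤ J, (T b)^[n] (fun c j => Φ c j + Δ c j) c j = (T b)^[n] Φ c j + Δ c j := by
  induction n with
  | zero => intro c j _; rfl
  | succ n ih =>
    intro c j hj
    rw [Function.iterate_succ_apply', Function.iterate_succ_apply', T_succ, T_succ, ih c j hj]
    rw [sum_congr rfl (g := fun l => (T b)^[n] Φ (c * j.choose (l + 1) * b ^ (l + 1)) (j - (l + 1)))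
      (fun l hl => by
        have hl' : l < j := mem_range.mp hl
        rw [ih _ _ (by omega), hΔ _ _ (by omega), add_zero])]
    abel

theorem exists_pow_gt (hq : 2 ≤ q) (x : ℕ) : ∃ L₁, ∀ L ≥ L₁, x < q ^ L := by
  refine ⟨x, fun L hL => ?_⟩
  calc x < 2 ^ x := Nat.lt_two_pow_self
    _ ≤ q ^ x := Nat.pow_le_pow_left hq x
    _ ≤ q ^ L := Nat.pow_le_pow_right (by omega) hL

theorem block_le {B c j l b z J : ℕ} (hc : c ≤ B) (hj : j ≤ J) (hl : l ≤ j) :
    c * j.choose l * b ^ l * z ^ (j - l) ≤ B * (2 ^ J * (b + 1) ^ J) * (z + 1) ^ J := by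
  have h1 : j.choose l ≤ 2 ^ J :=
    (Nat.choose_le_two_pow j l).trans (Nat.pow_le_pow_right (by norm_num) hj)
  have h2 : b ^ l ≤ (b + 1) ^ J :=
    (Nat.pow_le_pow_left (by omega) l).trans (Nat.pow_le_pow_right (by omega) (by omega))
  have h3 : z ^ (j - l) ≤ (z + 1) ^ J :=
    (Nat.pow_le_pow_left (by omega) _).trans (Nat.pow_le_pow_right (by omega) (by omega))
  calc c * j.choose l * b ^ l * z ^ (j - l) ≤ B * 2 ^ J * (b + 1) ^ J * (z + 1) ^ J := by gcongr
    _ = _ := by ring

theorem coef_le {B c j l b J : ℕ} (hc : c ≤ B) (hj : j ≤ J) (hl : l ≤ j) :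
    c * j.choose l * b ^ l ≤ B * (2 ^ J * (b + 1) ^ J) := by
  have h := block_le (z := 0) (b := b) (J := J) hc hj hl
  have h1 : j.choose l ≤ 2 ^ J :=
    (Nat.choose_le_two_pow j l).trans (Nat.pow_le_pow_right (by norm_num) hj)
  have h2 : b ^ l ≤ (b + 1) ^ J :=
    (Nat.pow_le_pow_left (by omega) l).trans (Nat.pow_le_pow_right (by omega) (by omega))
  calc c * j.choose l * b ^ l ≤ B * 2 ^ J * (b + 1) ^ J := by gcongr
    _ = _ := by ring

/-- adding `n` copies of `b` at high positions -/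
theorem copies (hq : 2 ≤ q) (hf : SA q f) (J b n : ℕ) : ∀ (B z : ℕ) (Ψ : ℕ → ℕ → G)
    (_ : ∀ c ≤ B * (2 ^ J * (b + 1) ^ J) ^ n, ∀ j ≤ J, f (c * z ^ j) = Ψ c j) (L₀ : ℕ),
    ∃ Z, (∃ t, Z = z + q ^ L₀ * t) ∧ (∀ c ≤ B, ∀ j ≤ J, f (c * Z ^ j) = (T b)^[n] Ψ c j) ∧
      ((n = 0 ∧ Z = z) ∨ ∃ L r, Z = q ^ L * b + r ∧ r < q ^ L) := by
  induction n with
  | zero =>
    intro B z Ψ h L₀
    exact ⟨z, ⟨0, by simp⟩, fun c hc j hj => by simpa using h c (by simpa using hc) j hj,
      Or.inl ⟨rfl, rfl⟩⟩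
  | succ n ih =>
    intro B z Ψ h L₀
    obtain ⟨Z, ⟨t, ht⟩, hZ, -⟩ := ih (B * (2 ^ J * (b + 1) ^ J)) z Ψ
      (fun c hc j hj => h c (by rw [pow_succ']; calc c ≤ _ := hc
                                _ = _ := by ring) j hj) L₀
    obtain ⟨L₁, hL₁⟩ := exists_pow_gt hq (B * (2 ^ J * (b + 1) ^ J) * (Z + 1) ^ J + Z)
    have hL := hL₁ (max L₀ L₁) (le_max_right _ _)
    refine ⟨Z + q ^ (max L₀ L₁) * b, ⟨t + q ^ (max L₀ L₁ - L₀) * b, ?_⟩, fun c hc j hj => ?_,
      Or.inr ⟨max L₀ L₁, Z, by ring, by omega⟩⟩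
    · have : q ^ (max L₀ L₁) = q ^ L₀ * q ^ (max L₀ L₁ - L₀) := by
        rw [← pow_add]
        congr 1
        omega
      rw [ht, this]
      ring
    · rw [realize hq hf c Z b _ j (fun l hl =>
        lt_of_le_of_lt ((block_le hc hj hl).trans (Nat.le_add_right _ Z)) hL),
        Function.iterate_succ_apply']
      unfold T
      refine sum_congr rfl fun l hl => ?_
      have hl' : l < j + 1 := mem_range.mp hl
      exact hZ _ (coef_le hc hj (by omega)) _ (by omega)

end Pool.Agent.H53.QA
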