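import Pool.Agent.H53.QA.Base

set_option autoImplicit false

open Finset

namespace Pool.Agent.H53.QA

variable {G : Type*} [AddCommGroup G] {q : ℕ} {f : ℕ → G}

theorem T_zero (hq : 2 ≤ q) (hf : SA q f) (a : ℕ) :
    T a (fun c j => f (c * 0 ^ j)) = fun c j => f (c * a ^ j) := by
  funext c j
  unfold T
  rw [sum_range_succ, sum_eq_zero (fun l hl => ?_)]
  · simp
  · have hl' : l < j := mem_range.mp hl
    show f (_ * 0 ^ (j - l)) = 0
    rw [zero_pow (by omega), mul_zero, hf.zero hq]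

theorem null {e : ℕ} (he : ∀ g : G, e • g = 0) (he1 : 1 ≤ e) (hq : 2 ≤ q) (hf : SA q f)
    (J B a₀ L₀ : ℕ) : ∃ ν, (∃ t, ν = a₀ + q ^ L₀ * t) ∧
      (∀ c ≤ B, ∀ j ≤ J, 1 ≤ j → f (c * ν ^ j) = 0) ∧ ∃ L r, ν = q ^ L * a₀ + r ∧ r < q ^ L := by
  obtain ⟨Z, ht, hZ, hlead⟩ := copies hq hf J a₀ (e ^ J - 1) B a₀ (fun c j => f (c * a₀ ^ j))
    (fun c _ j _ => rfl) L₀
  refine ⟨Z, ht, fun c hc j hj hj1 => ?_, ?_⟩
  · have hN : 1 ≤ e ^ J := Nat.one_le_pow _ _ he1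
    rw [hZ c hc j hj, ← T_zero hq hf a₀, ← Function.iterate_succ_apply,
      show (e ^ J - 1).succ = 0 + e ^ (J - j) * e ^ j by
        rw [← pow_add, show J - j + j = J by omega]; omega,
      periodic he]
    show f (c * 0 ^ j) = 0
    rw [zero_pow (by omega), mul_zero, hf.zero hq]
  · rcases hlead with ⟨-, h⟩ | h
    · exact ⟨0, 0, by simp [h], by simp⟩
    · exact h

/-- `y = ν + q ^ M`, the positions overlap in degree `J` -/
theorem bare (hq : 2 ≤ q) (hf : SA q f) (J c ν M : ℕ) (hJ : 1 ≤ J)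
    (h1 : ∀ j ≤ J, ∀ l ≤ j, j - l < J → c * j.choose l * 1 ^ l * ν ^ (j - l) < q ^ M)
    (h2 : c * ν ^ J / q ^ M + c * J * ν ^ (J - 1) < q ^ M) : ∀ j ≤ J,
    f (c * (ν + q ^ M * 1) ^ j) = T 1 (fun c j => f (c * ν ^ j)) c j +
      if j = J then f (c * ν ^ J / q ^ M + c * J * ν ^ (J - 1)) - f (c * ν ^ J / q ^ M) -
        f (c * J * ν ^ (J - 1)) else 0 := by
  intro j hj
  rcases Nat.lt_or_eq_of_le hj with hj' | rfl
  · rw [if_neg (by omega), add_zero]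
    exact realize hq hf c ν 1 M j (fun l hl => h1 j hj l hl (by omega))
  · rw [if_pos rfl]
    obtain ⟨i, rfl⟩ : ∃ i, j = i + 1 := ⟨j - 1, by omega⟩
    have hQ : 0 < q ^ M := by positivity
    set Q := q ^ M with hQdef
    set t := c * ν ^ (i + 1) / Q with ht
    let a : ℕ → ℕ := fun l => c * (i + 1).choose l * 1 ^ l * ν ^ (i + 1 - l)
    let a' : ℕ → ℕ := fun l => match l with
      | 0 => c * ν ^ (i + 1) % Q
      | 1 => t + c * (i + 1) * ν ^ i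
      | l + 2 => a (l + 2)
    have ha' : ∀ l < i + 2, a' l < q ^ M := by
      intro l hl
      match l with
      | 0 => exact Nat.mod_lt _ hQ
      | 1 => simpa using h2
      | l + 2 => exact h1 (i + 1) le_rfl (l + 2) (by omega) (by omega)
    have hsum : c * (ν + Q * 1) ^ (i + 1) = ∑ l ∈ range (i + 2), a' l * Q ^ l := by
      rw [expand, sum_range_succ', sum_range_succ', sum_range_succ' _ (i + 1),
        sum_range_succ' _ i]
      have h3 : ∑ l ∈ range i, c * (i + 1).choose (l + 1 + 1) * 1 ^ (l + 1 + 1) *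
          ν ^ (i + 1 - (l + 1 + 1)) * Q ^ (l + 1 + 1) =
          ∑ l ∈ range i, a' (l + 1 + 1) * Q ^ (l + 1 + 1) := rfl
      rw [h3]
      have h4 : a' 0 = c * ν ^ (i + 1) % Q := rfl
      have h5 : a' (0 + 1) = t + c * (i + 1) * ν ^ i := rfl
      rw [h4, h5]
      have h6 : Q * t + c * ν ^ (i + 1) % Q = c * ν ^ (i + 1) := Nat.div_add_mod _ _
      have h7 : c * (i + 1).choose 0 * 1 ^ 0 * ν ^ (i + 1 - 0) * Q ^ 0 =
          Q * t + c * ν ^ (i + 1) % Q := by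
        rw [h6]
        simp
      rw [h7]
      simp only [zero_add, Nat.choose_one_right, mul_one, pow_one, pow_zero,
        Nat.add_sub_cancel]
      ring
    have h8 : f (c * (ν + Q * 1) ^ (i + 1)) = ∑ l ∈ range (i + 2), f (a' l) := by
      rw [hsum, hQdef, hf.sum hq M (i + 2) a' ha']
    rw [h8, sum_range_succ', sum_range_succ']
    unfold T
    rw [sum_range_succ', sum_range_succ']
    have h9 : ∑ l ∈ range i, f (c * (i + 1).choose (l + 1 + 1) * 1 ^ (l + 1 + 1) *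
          ν ^ (i + 1 - (l + 1 + 1))) = ∑ l ∈ range i, f (a' (l + 1 + 1)) := rfl
    rw [h9]
    have h4 : a' 0 = c * ν ^ (i + 1) % Q := rfl
    have h5 : a' (0 + 1) = t + c * (i + 1) * ν ^ i := rfl
    rw [h4, h5]
    beta_reduce
    have h10 : f (c * (i + 1).choose 0 * 1 ^ 0 * ν ^ (i + 1 - 0)) =
        f (c * ν ^ (i + 1) % Q) + f t := by
      rw [← hf.split hq M _ t (Nat.mod_lt _ hQ), ← hQdef, Nat.mod_add_div]
      simp
    rw [h10]
    simp only [zero_add, Nat.choose_one_right, one_pow, mul_one, Nat.add_sub_cancel]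
    abel

theorem one_add_pow (Q s m : ℕ) : ∃ s', (1 + Q * s) ^ m = 1 + Q * s' := by
  induction m with
  | zero => exact ⟨0, by simp⟩
  | succ m ih =>
    obtain ⟨s', h⟩ := ih
    exact ⟨s + s' + Q * s * s', by rw [pow_succ, h]; ring⟩

theorem core {e : ℕ} (he : ∀ g : G, e • g = 0) (he1 : 1 ≤ e) (hq : 2 ≤ q) (hf : SA q f)
    (J B : ℕ) (hJ : 1 ≤ J) : ∃ R : ℕ, ∀ a₀ κ W L' : ℕ, (∃ s, a₀ = 1 + q ^ L' * s) →
      (a₀ + 1) ^ J ≤ W * (q ^ κ) ^ J → R * (W + (a₀ + 1) ^ (J - 1)) < (q ^ κ) ^ J →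
      ∃ v, (∀ c ≤ B, ∀ j, 1 ≤ j → j < J → f (c * v ^ j) = 0) ∧
        ∀ c ≤ B, ∀ τ, τ * (q ^ κ) ^ J ≤ c * a₀ ^ J → c * (a₀ + 1) ^ J ≤ (τ + 1) * (q ^ κ) ^ J →
          τ + c * J < q ^ L' → f (c * v ^ J) = f (τ + c * J) - f τ - f (c * J) := by
  set n := e ^ J - 1 with hn
  set B₂ := B * (2 ^ J * (1 + 1) ^ J) ^ n with hB₂
  refine ⟨(B₂ + 1) * (2 ^ J + J + 1), fun a₀ κ W L' ha₀ hW hR => ?_⟩
  obtain ⟨ν, ⟨t', ht'⟩, hν, L, r, hlead, hr⟩ := null he he1 hq hf J B a₀ L'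
  obtain ⟨s, hs⟩ := ha₀
  set X := q ^ κ with hX
  set Q := q ^ L with hQ
  have hQ1 : 1 ≤ Q := Nat.one_le_pow _ _ (by omega)
  have hνlt : ν < Q * (a₀ + 1) := by rw [hlead, mul_add]; omega
  have hνle : ν ≤ Q * (a₀ + 1) := hνlt.le
  have hνge : Q * a₀ ≤ ν := by rw [hlead]; omega
  have hQa : 1 ≤ Q * (a₀ + 1) := Nat.mul_pos hQ1 (by omega)
  have hM : q ^ (J * (L + κ)) = Q ^ J * X ^ J := by
    rw [hQ, hX, ← mul_pow, ← pow_add, ← pow_mul, mul_comm J]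
  have hQJ : Q ^ J = Q ^ (J - 1) * Q := by
    rw [← pow_succ]
    congr 1
    omega
  have hQpos : 0 < Q ^ (J - 1) := by positivity
  -- the bound for all blocks
  have hkey : ∀ m : ℕ, m ≤ J - 1 → ν ^ m ≤ Q ^ (J - 1) * (a₀ + 1) ^ (J - 1) := by
    intro m hm
    calc ν ^ m ≤ (Q * (a₀ + 1)) ^ m := Nat.pow_le_pow_left hνle m
      _ ≤ (Q * (a₀ + 1)) ^ (J - 1) := Nat.pow_le_pow_right hQa hm
      _ = _ := mul_pow _ _ _
  have hbig : (B₂ + 1) * (2 ^ J + J + 1) * (W + (a₀ + 1) ^ (J - 1)) * Q ^ (J - 1) <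
      q ^ (J * (L + κ)) := by
    rw [hM, hQJ]
    calc (B₂ + 1) * (2 ^ J + J + 1) * (W + (a₀ + 1) ^ (J - 1)) * Q ^ (J - 1)
        < X ^ J * Q ^ (J - 1) := by
          exact Nat.mul_lt_mul_of_pos_right hR hQpos
      _ = Q ^ (J - 1) * 1 * X ^ J := by ring
      _ ≤ Q ^ (J - 1) * Q * X ^ J := by gcongr
  have h1 : ∀ c ≤ B₂, ∀ j ≤ J, ∀ l ≤ j, j - l < J →
      c * j.choose l * 1 ^ l * ν ^ (j - l) < q ^ (J * (L + κ)) := by
    intro c hc j hj l hl hjl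
    refine lt_of_le_of_lt ?_ hbig
    have hch : j.choose l ≤ 2 ^ J :=
      (Nat.choose_le_two_pow j l).trans (Nat.pow_le_pow_right (by norm_num) hj)
    calc c * j.choose l * 1 ^ l * ν ^ (j - l)
        ≤ (B₂ + 1) * 2 ^ J * 1 * (Q ^ (J - 1) * (a₀ + 1) ^ (J - 1)) := by
          rw [one_pow]
          exact Nat.mul_le_mul (Nat.mul_le_mul (Nat.mul_le_mul (by omega) hch) le_rfl)
            (hkey _ (by omega))
      _ = (B₂ + 1) * (2 ^ J) * (a₀ + 1) ^ (J - 1) * Q ^ (J - 1) := by ring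
      _ ≤ _ := by
          gcongr
          · omega
          · omega
  have hcν : ∀ c, c * ν ^ J ≤ c * W * q ^ (J * (L + κ)) := by
    intro c
    calc c * ν ^ J ≤ c * (Q * (a₀ + 1)) ^ J :=
          Nat.mul_le_mul_left c (Nat.pow_le_pow_left hνle J)
      _ = c * (Q ^ J * (a₀ + 1) ^ J) := by rw [mul_pow]
      _ ≤ c * (Q ^ J * (W * X ^ J)) := by gcongr
      _ = c * W * q ^ (J * (L + κ)) := by rw [hM]; ring
  have h2 : ∀ c ≤ B₂, c * ν ^ J / q ^ (J * (L + κ)) + c * J * ν ^ (J - 1) <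
      q ^ (J * (L + κ)) := by
    intro c hc
    refine lt_of_le_of_lt ?_ hbig
    have h3 : c * ν ^ J / q ^ (J * (L + κ)) ≤ c * W :=
      Nat.div_le_of_le_mul (by rw [mul_comm (q ^ (J * (L + κ)))]; exact hcν c)
    have h4 : c * J * ν ^ (J - 1) ≤ (B₂ + 1) * J * (Q ^ (J - 1) * (a₀ + 1) ^ (J - 1)) :=
      Nat.mul_le_mul (Nat.mul_le_mul_right J (by omega)) (hkey _ le_rfl)
    have h5 : c * W ≤ (B₂ + 1) * 1 * W * Q ^ (J - 1) := by
      calc c * W ≤ (B₂ + 1) * W := Nat.mul_le_mul_right W (by omega)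
        _ = (B₂ + 1) * 1 * W * 1 := by ring
        _ ≤ _ := by gcongr; exact hQpos
    calc _ ≤ (B₂ + 1) * 1 * W * Q ^ (J - 1) + (B₂ + 1) * J * (Q ^ (J - 1) * (a₀ + 1) ^ (J - 1)) :=
          Nat.add_le_add (h3.trans h5) h4
      _ = (B₂ + 1) * Q ^ (J - 1) * (1 * W + J * (a₀ + 1) ^ (J - 1)) := by ring
      _ ≤ (B₂ + 1) * Q ^ (J - 1) * ((2 ^ J + J + 1) * W + (2 ^ J + J + 1) * (a₀ + 1) ^ (J - 1)) := by
          have h6 : 1 ≤ 2 ^ J + J + 1 := Nat.le_add_left 1 _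
          have h7 : J ≤ 2 ^ J + J + 1 := (Nat.le_add_left J _).trans (Nat.le_add_right _ 1)
          gcongr
      _ = _ := by ring
  -- the number `A`
  let Δ : ℕ → ℕ → G := fun c j => if j = J then
    f (c * ν ^ J / q ^ (J * (L + κ)) + c * J * ν ^ (J - 1)) - f (c * ν ^ J / q ^ (J * (L + κ))) -
      f (c * J * ν ^ (J - 1)) else 0
  obtain ⟨A, -, hA, -⟩ := copies hq hf J 1 n B (ν + q ^ (J * (L + κ)) * 1)
    (fun c j => T 1 (fun c j => f (c * ν ^ j)) c j + Δ c j)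
    (fun c hc j hj => bare hq hf J c ν (J * (L + κ)) hJ (h1 c hc) (h2 c hc) j hj) 0
  have hN : 1 ≤ e ^ J := Nat.one_le_pow _ _ he1
  have hA2 : ∀ c ≤ B, ∀ j ≤ J, f (c * A ^ j) = f (c * ν ^ j) + Δ c j := by
    intro c hc j hj
    rw [hA c hc j hj, T_defect 1 J (T 1 (fun c j => f (c * ν ^ j))) Δ
      (fun c j hj => if_neg (by omega)) n c j hj, ← Function.iterate_succ_apply,
      show n.succ = 0 + e ^ (J - j) * e ^ j by
        rw [← pow_add, show J - j + j = J by omega]; omega, periodic he]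
    rfl
  refine ⟨A, fun c hc j hj1 hj => ?_, fun c hc τ hτ1 hτ2 hτ3 => ?_⟩
  · rw [hA2 c hc j hj.le, hν c hc j hj.le hj1, zero_add]
    exact if_neg (by omega)
  · rw [hA2 c hc J le_rfl, hν c hc J le_rfl hJ, zero_add]
    have hdiv : c * ν ^ J / q ^ (J * (L + κ)) = τ := by
      rw [hM]
      apply Nat.div_eq_of_lt_le
      · calc τ * (Q ^ J * X ^ J) = Q ^ J * (τ * X ^ J) := by ring
          _ ≤ Q ^ J * (c * a₀ ^ J) := Nat.mul_le_mul_left _ hτ1
          _ = c * (Q * a₀) ^ J := by rw [mul_pow]; ring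
          _ ≤ c * ν ^ J := Nat.mul_le_mul_left _ (Nat.pow_le_pow_left hνge J)
      · rcases Nat.eq_zero_or_pos c with rfl | hc0
        · rw [zero_mul]
          positivity
        · calc c * ν ^ J < c * (Q * (a₀ + 1)) ^ J :=
                Nat.mul_lt_mul_of_pos_left (Nat.pow_lt_pow_left hνlt (by omega)) hc0
            _ = Q ^ J * (c * (a₀ + 1) ^ J) := by rw [mul_pow]; ring
            _ ≤ Q ^ J * ((τ + 1) * X ^ J) := Nat.mul_le_mul_left _ hτ2
            _ = (τ + 1) * (Q ^ J * X ^ J) := by ring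
    obtain ⟨s₃, hs₃⟩ := one_add_pow (q ^ L') (s + t') (J - 1)
    have hν1 : ν = 1 + q ^ L' * (s + t') := by rw [ht', hs]; ring
    have hval : c * J * ν ^ (J - 1) = c * J + q ^ L' * (c * J * s₃) := by
      rw [hν1, hs₃]; ring
    show (if J = J then f (c * ν ^ J / q ^ (J * (L + κ)) + c * J * ν ^ (J - 1)) -
      f (c * ν ^ J / q ^ (J * (L + κ))) - f (c * J * ν ^ (J - 1)) else 0) = _
    rw [if_pos rfl, hdiv, hval, ← add_assoc, hf.split hq L' (τ + c * J) _ hτ3,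
      hf.split hq L' (c * J) _ (by omega)]
    abel

end Pool.Agent.H53.QA
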