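import Pool.Agent.H53.QA.Poly

set_option autoImplicit false

open Finset Polynomial

namespace Pool.Agent.H53.QA

/-- preimages under reduction modulo a subgroup -/
theorem ncard_preimage {G : Type*} [AddCommGroup G] [Finite G] (H : AddSubgroup G) (k : ℕ)
    (A : Set (Fin k → G ⧸ H)) :
    Set.ncard {w : Fin k → G | (fun i => (QuotientAddGroup.mk (w i) : G ⧸ H)) ∈ A} =
      Nat.card H ^ k * A.ncard := by
  classical
  let e₀ : G ≃ (G ⧸ H) × H := AddSubgroup.addGroupEquivQuotientProdAddSubgroup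
  have he₀ : ∀ g, (e₀ g).1 = QuotientAddGroup.mk g := fun g => rfl
  let e : (Fin k → G) ≃ (Fin k → G ⧸ H) × (Fin k → H) :=
    (Equiv.arrowCongr (Equiv.refl _) e₀).trans (Equiv.arrowProdEquivProdArrow _ _ _)
  have he : ∀ w, (e w).1 = fun i => (QuotientAddGroup.mk (w i) : G ⧸ H) := fun w => rfl
  have h1 : e '' {w : Fin k → G | (fun i => (QuotientAddGroup.mk (w i) : G ⧸ H)) ∈ A} =
      A ×ˢ (Set.univ : Set (Fin k → H)) := by
    ext p
    constructor
    · rintro ⟨w, hw, rfl⟩
      exact ⟨by rw [he]; exact hw, trivial⟩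
    · rintro ⟨hp, -⟩
      refine ⟨e.symm p, ?_, e.apply_symm_apply p⟩
      show (fun i => (QuotientAddGroup.mk (e.symm p i) : G ⧸ H)) ∈ A
      rw [← he, e.apply_symm_apply]
      exact hp
  rw [← Set.ncard_image_of_injective _ e.injective, h1, Set.ncard_prod, Set.ncard_univ,
    Nat.card_fun, Nat.card_fin, mul_comm]

theorem digits_sa (q m : ℕ) (hq : 2 ≤ q) :
    SA q (fun n => ((Nat.digits q n).sum : ZMod m)) := by
  intro n d hd
  have h0 : ∀ x, 0 < x → Nat.digits q x = (x % q) :: Nat.digits q (x / q) := fun x hx =>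
    Nat.digits_def' (by omega) hx
  have hdd : (Nat.digits q d).sum = d := by
    rcases Nat.eq_zero_or_pos d with rfl | hd0
    · simp
    · rw [Nat.digits_of_lt q d (by omega) hd]
      simp
  rcases Nat.eq_zero_or_pos (q * n + d) with h | h
  · have hn : n = 0 := by
      by_contra hne
      have : 0 < q * n := Nat.mul_pos (by omega) (by omega)
      omega
    subst hn
    simp
  · show ((Nat.digits q (q * n + d)).sum : ZMod m) = _
    have h1 : (q * n + d) % q = d := by
      rw [Nat.mul_add_mod]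
      exact Nat.mod_eq_of_lt hd
    have h2 : (q * n + d) / q = n := by
      rw [Nat.mul_add_div (by omega), Nat.div_eq_of_lt hd, add_zero]
    beta_reduce
    rw [h0 _ h, h1, h2, List.sum_cons, hdd]
    push_cast
    ring

theorem digits_closure (q m : ℕ) (hq : 2 ≤ q) (hm : 1 ≤ m) :
    AddSubgroup.closure (Set.range fun n : ℕ => ((Nat.digits q n).sum : ZMod m) -
      n • ((Nat.digits q 1).sum : ZMod m)) = ⊤ ↔ Nat.Coprime (q - 1) m := by
  have hd1 : (Nat.digits q 1).sum = 1 := by
    rw [Nat.digits_of_lt q 1 (by omega) (by omega)]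
    simp
  have hdq : (Nat.digits q q).sum = 1 := by
    have h : Nat.digits q q = (q % q) :: Nat.digits q (q / q) :=
      Nat.digits_def' (by omega) (by omega)
    rw [h, Nat.mod_self, Nat.div_self (by omega), List.sum_cons, hd1]
  constructor
  · intro h
    set d := Nat.gcd (q - 1) m with hd
    have hdm : d ∣ m := Nat.gcd_dvd_right _ _
    have hdq1 : d ∣ q - 1 := Nat.gcd_dvd_left _ _
    let φ : ZMod m →+ ZMod d := (ZMod.castHom hdm (ZMod d)).toAddMonoidHom
    have hφ : ∀ n : ℕ, φ (n : ZMod m) = (n : ZMod d) := fun n => map_natCast (ZMod.castHom hdm (ZMod d)) n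
    have hker : AddSubgroup.closure (Set.range fun n : ℕ => ((Nat.digits q n).sum : ZMod m) -
      n • ((Nat.digits q 1).sum : ZMod m)) ≤ φ.ker := by
      rw [AddSubgroup.closure_le]
      rintro x ⟨n, rfl⟩
      show φ _ = 0
      rw [hd1, map_sub, hφ, map_nsmul, hφ, sub_eq_zero, Nat.cast_one, nsmul_one]
      have hmod : q % d = 1 % d := by
        have h3 : q = (q - 1) + 1 := by omega
        obtain ⟨y, hy⟩ := hdq1
        rw [h3, hy, Nat.mul_add_mod]
      have h4 : n ≡ (Nat.digits q n).sum [MOD d] := by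
        have h5 := Nat.ofDigits_modEq' q 1 d hmod (Nat.digits q n)
        rw [Nat.ofDigits_digits, Nat.ofDigits_one] at h5
        exact h5
      exact ((ZMod.natCast_eq_natCast_iff _ _ _).mpr h4).symm
    rw [h] at hker
    have h6 : φ ((1 : ℕ) : ZMod m) = 0 := hker (x := ((1 : ℕ) : ZMod m)) trivial
    rw [hφ] at h6
    have h7 : d ∣ 1 := (ZMod.natCast_eq_zero_iff 1 d).mp h6
    exact Nat.dvd_one.mp h7
  · intro h
    rw [eq_top_iff]
    intro x _
    have h1 : ((1 : ZMod m) - (q : ZMod m)) ∈ AddSubgroup.closure (Set.range fun n : ℕ =>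
        ((Nat.digits q n).sum : ZMod m) - n • ((Nat.digits q 1).sum : ZMod m)) := by
      refine AddSubgroup.subset_closure ⟨q, ?_⟩
      show ((Nat.digits q q).sum : ZMod m) - q • ((Nat.digits q 1).sum : ZMod m) = _
      rw [hdq, hd1]
      simp
    have hu : IsUnit ((q - 1 : ℕ) : ZMod m) := (ZMod.isUnit_iff_coprime _ _).mpr h
    obtain ⟨y, hy⟩ := hu.exists_left_inv
    have : NeZero m := ⟨by omega⟩
    have h2 : x = (-(x * y)).val • ((1 : ZMod m) - (q : ZMod m)) := by
      rw [nsmul_eq_mul, ZMod.natCast_val, ZMod.cast_id]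
      have h3 : (1 : ZMod m) - (q : ZMod m) = -((q - 1 : ℕ) : ZMod m) := by
        rw [Nat.cast_sub (by omega)]
        simp
      rw [h3, neg_mul_neg, mul_assoc, hy, mul_one]
    rw [h2]
    exact nsmul_mem h1 _

end Pool.Agent.H53.QA
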