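import Pool.Agent.H53.QA.Main

set_option autoImplicit false

open Finset

namespace Pool.Agent.H53.QA

/-- the arithmetic of a separated family -/
theorem not_dvd_of_sep {q B a c₀ ci cj u : ℕ} (hq : 2 ≤ q) (hci : ci = q ^ a * c₀)
    (ha : a ≤ B) (hu : 1 ≤ u) (hgcd : Nat.gcd u c₀ ≤ q ^ (B + 2)) (hne : ci ≠ cj)
    (hsep : q ^ (2 * B + 2) * ((ci - cj) + (cj - ci)) < ci) : ¬ c₀ ∣ cj * u := by
  intro hdvd
  set G₀ := Nat.gcd u c₀ with hG
  have hGpos : 0 < G₀ := Nat.gcd_pos_of_pos_left _ hu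
  obtain ⟨u₁, c₁, hcop, hu₁, hc₁⟩ := Nat.exists_coprime u c₀
  rw [← hG] at hu₁ hc₁
  have h1 : c₁ ∣ cj * u₁ := by
    rw [hu₁, hc₁, ← mul_assoc] at hdvd
    exact Nat.dvd_of_mul_dvd_mul_right hGpos hdvd
  have h2 : c₁ ∣ cj := Nat.Coprime.dvd_of_dvd_mul_right hcop.symm h1
  have h3 : c₁ ∣ ci := by
    rw [hci, hc₁]
    exact Dvd.dvd.mul_left (Dvd.intro _ rfl) _
  have h4 : c₁ ∣ (ci - cj) + (cj - ci) := dvd_add (Nat.dvd_sub h3 h2) (Nat.dvd_sub h2 h3)
  have h5 : c₁ ≤ (ci - cj) + (cj - ci) := Nat.le_of_dvd (by omega) h4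
  have h6 : ci ≤ q ^ (2 * B + 2) * ((ci - cj) + (cj - ci)) := by
    calc ci = q ^ a * (c₁ * G₀) := by rw [hci, ← hc₁]
      _ ≤ q ^ B * (((ci - cj) + (cj - ci)) * q ^ (B + 2)) := by
          gcongr
          omega
      _ = _ := by ring
  omega

variable {G : Type*} [AddCommGroup G] [Finite G] {q : ℕ} {f : ℕ → G}

theorem full (hq : 2 ≤ q) (hf : SA q f) {ι : Type*} [Finite ι] (c : ι → ℕ) (J : ℕ) (hJ : 1 ≤ J) (B : ℕ)
    (h0 : ∀ i, ¬ q ^ B ∣ c i * J) (hne : ∀ i j, i ≠ j → c i ≠ c j)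
    (hsep : ∀ i j, i ≠ j → q ^ (2 * B + 2) * ((c i - c j) + (c j - c i)) < c i)
    (g : ι → G) (hg : ∀ i, g i ∈ AddSubgroup.closure (Set.range fun n : ℕ => f n - n • f 1))
    (B₁ : ℕ) : S f c J B₁ g := by
  classical
  have hcard : 1 ≤ Nat.card G := Nat.card_pos
  have he : ∀ x : G, Nat.card G • x = 0 := fun x => card_nsmul_eq_zero'
  -- stabilisation
  obtain ⟨B₀, hB₀⟩ : ∃ B₀, ∀ g, S f c J B₀ g → g ∈ W hq hf c J hJ := by
    have h1 : ∀ g : ι → G, ∃ B, S f c J B g → g ∈ W hq hf c J hJ := by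
      intro g
      by_cases hg : g ∈ W hq hf c J hJ
      · exact ⟨0, fun _ => hg⟩
      · have : ¬ ∀ B, S f c J B g := hg
        push Not at this
        obtain ⟨B, hB⟩ := this
        exact ⟨B, fun h => absurd h hB⟩
    choose β hβ using h1
    obtain ⟨B₀, hB₀⟩ := (Set.finite_range β).bddAbove
    exact ⟨B₀, fun g hg => hβ g (S_anti hg (hB₀ ⟨g, rfl⟩))⟩
  obtain ⟨E, hE⟩ := (Set.finite_range c).bddAbove
  -- the coordinates
  have hsingle : ∀ i, ∀ x ∈ AddSubgroup.closure (Set.range fun n : ℕ => f n - n • f 1),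
      Pi.single i x ∈ W hq hf c J hJ := by
    intro i
    let H : AddSubgroup G := (W hq hf c J hJ).comap (AddMonoidHom.single (fun _ : ι => G) i)
    have hci0 : c i ≠ 0 := fun h => h0 i (by rw [h, zero_mul]; exact dvd_zero _)
    obtain ⟨a, c₀, hc₀, hca⟩ := Nat.exists_eq_pow_mul_and_not_dvd hci0 q (by omega)
    have hc₀pos : 1 ≤ c₀ := by
      rcases Nat.eq_zero_or_pos c₀ with h | h
      · exact absurd (h ▸ dvd_zero q) hc₀
      · exact h
    have haB : a ≤ B := by
      by_contra hcon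
      exact h0 i (Dvd.dvd.mul_right ((pow_dvd_pow q (by omega)).trans ⟨c₀, hca⟩) J)
    have hc₀le : c₀ ≤ c i := by
      rw [hca]
      exact Nat.le_mul_of_pos_left _ (by positivity)
    have hciE : c i ≤ E := hE ⟨i, rfl⟩
    let g' : ℕ → G ⧸ H := fun n => QuotientAddGroup.mk' H (f n)
    have hg' : SA q g' := fun n d hd => by
      show QuotientAddGroup.mk' H (f (q * n + d)) = _
      rw [hf n d hd, map_add]
    have hkey := lin hq hg' c₀ J B (fun h => h0 i (by
      rw [hca, mul_assoc]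
      exact Dvd.dvd.mul_left h _)) (fun u hu hgcd => by
        obtain ⟨v, w, h1, h2, h3, h4, h5⟩ := moves he hcard hq hf J (B₀ + E) c₀ u hJ hc₀pos
          (by omega) hu
        have hv : (fun j => f (c j * v ^ J)) ∈ W hq hf c J hJ :=
          hB₀ _ ⟨v, fun c hc => h1 c (by omega), fun j => rfl⟩
        have hw : (fun j => f (c j * w ^ J)) ∈ W hq hf c J hJ :=
          hB₀ _ ⟨w, fun c hc => h2 c (by omega), fun j => rfl⟩
        have hdiff := sub_mem hv hw
        have hstrip : ∀ y, f (c i * y) = f (c₀ * y) := fun y => by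
          rw [hca, mul_assoc, hf.pow_mul hq]
        have heq : (fun j => f (c j * v ^ J)) - (fun j => f (c j * w ^ J)) =
            Pi.single i ((f (u + c₀ * J) - f u) - (f (u - 1 + c₀ * J) - f (u - 1))) := by
          funext j
          by_cases hji : j = i
          · subst hji
            rw [Pi.single_eq_same]
            show f (c j * v ^ J) - f (c j * w ^ J) = _
            rw [hstrip, hstrip, h3, h4]
            abel
          · rw [Pi.single_eq_of_ne hji]
            show f (c j * v ^ J) - f (c j * w ^ J) = 0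
            rw [h5 (c j) ((hE ⟨j, rfl⟩ : c j ≤ E).trans (by omega))
              (not_dvd_of_sep hq hca haB hu hgcd (hne i j (Ne.symm hji))
                (hsep i j (Ne.symm hji))), sub_self]
        rw [heq] at hdiff
        have hmem : (f (u + c₀ * J) - f u) - (f (u - 1 + c₀ * J) - f (u - 1)) ∈ H := hdiff
        have hz : QuotientAddGroup.mk' H
            ((f (u + c₀ * J) - f u) - (f (u - 1 + c₀ * J) - f (u - 1))) = 0 :=
          (QuotientAddGroup.eq_zero_iff _).mpr hmem
        rw [map_sub, map_sub, map_sub] at hz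
        show QuotientAddGroup.mk' H _ - QuotientAddGroup.mk' H _ =
          QuotientAddGroup.mk' H _ - QuotientAddGroup.mk' H _
        rw [sub_eq_zero] at hz
        rw [sub_eq_sub_iff_add_eq_add] at hz ⊢
        rw [hz, add_comm])
    have hH : AddSubgroup.closure (Set.range fun n : ℕ => f n - n • f 1) ≤ H := by
      rw [AddSubgroup.closure_le]
      rintro x ⟨n, rfl⟩
      have h6 := hkey n
      show f n - n • f 1 ∈ H
      rw [← QuotientAddGroup.eq_zero_iff]
      show QuotientAddGroup.mk' H (f n - n • f 1) = 0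
      rw [map_sub, map_nsmul, sub_eq_zero]
      exact h6
    intro x hx
    exact hH hx
  have hall : g ∈ W hq hf c J hJ := by
    have := Fintype.ofFinite ι
    rw [← Finset.univ_sum_single g]
    exact sum_mem fun i _ => hsingle i (g i) (hg i)
  exact hall B₁

end Pool.Agent.H53.QA
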