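import Pool.Agent.H53.QA.Moves

set_option autoImplicit false

open Finset

namespace Pool.Agent.H53.QA

theorem del_pow {C : Type*} [AddCommGroup C] {q : ℕ} {g : ℕ → C} (hq : 2 ≤ q) (hg : SA q g)
    (v m : ℕ) (hm : 1 ≤ m) :
    g (q ^ v * m) - g (q ^ v * m - 1) = g m - g (m - 1) - v • g (q - 1) := by
  induction v with
  | zero => simp
  | succ v ih =>
    have h1 : 1 ≤ q ^ v * m := Nat.mul_pos (by positivity) hm
    have h2 : q ^ (v + 1) * m = q * (q ^ v * m) := by ring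
    obtain ⟨k, hk⟩ : ∃ k, q ^ v * m = k + 1 := ⟨q ^ v * m - 1, by omega⟩
    have h3 : q * (q ^ v * m) - 1 = q * (q ^ v * m - 1) + (q - 1) := by
      rw [hk, Nat.add_sub_cancel, mul_add]
      omega
    rw [h2, hg.mul hq, h3, hg _ _ (by omega), succ_nsmul, ← sub_sub, ih]
    abel

theorem lin {C : Type*} [AddCommGroup C] {q : ℕ} {g : ℕ → C} (hq : 2 ≤ q) (hg : SA q g)
    (c J B : ℕ) (hB : ¬ q ^ B ∣ c * J)
    (h : ∀ u, 1 ≤ u → Nat.gcd u c ≤ q ^ (B + 2) →
      g (u + c * J) - g (u - 1 + c * J) = g u - g (u - 1)) (n : ℕ) : g n = n • g 1 := by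
  have hcJ : c * J ≠ 0 := fun h0 => hB (h0 ▸ dvd_zero _)
  obtain ⟨v, c₂, hc₂, hv⟩ := Nat.exists_eq_pow_mul_and_not_dvd hcJ q (by omega)
  have hvB : v < B := by
    by_contra hcon
    exact hB ((pow_dvd_pow q (by omega)).trans ⟨c₂, hv⟩)
  have E1 : ∀ m, 1 ≤ m → q ^ v * m ≤ q ^ (B + 2) →
      g (m + c₂) - g (m + c₂ - 1) = g m - g (m - 1) := by
    intro m hm hle
    have hpos : 1 ≤ q ^ v * m := Nat.mul_pos (by positivity) hm
    have h1 := h (q ^ v * m) hpos ((Nat.gcd_le_left _ hpos).trans hle)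
    rw [hv, show q ^ v * m + q ^ v * c₂ = q ^ v * (m + c₂) by ring,
      show q ^ v * m - 1 + q ^ v * c₂ = q ^ v * (m + c₂) - 1 by rw [mul_add]; omega,
      del_pow hq hg v _ (by omega), del_pow hq hg v m hm] at h1
    exact sub_left_injective h1
  have hγ : 1 ≤ c₂ % q := by
    by_contra hcon
    exact hc₂ (Nat.dvd_of_mod_eq_zero (by omega))
  have hγ2 : c₂ % q < q := Nat.mod_lt _ (by omega)
  have hdm : q * (c₂ / q) + c₂ % q = c₂ := Nat.div_add_mod _ _
  set κ := g (c₂ % q) - g (c₂ % q - 1) + g (q - 1) with hκ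
  have E2 : ∀ m, 1 ≤ m → m ≤ q → g m - g (m - 1) = κ := by
    intro m hm hmq
    have hle : q ^ v * (q * m) ≤ q ^ (B + 2) := by
      calc q ^ v * (q * m) ≤ q ^ v * (q * q) := by gcongr
        _ = q ^ (v + 2) := by ring
        _ ≤ q ^ (B + 2) := Nat.pow_le_pow_right (by omega) (by omega)
    have h1 := E1 (q * m) (Nat.mul_pos (by omega) hm) hle
    have h2 := del_pow hq hg 1 m hm
    rw [pow_one, one_nsmul] at h2
    have h3 : q * m + c₂ = q * (m + c₂ / q) + c₂ % q := by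
      conv_lhs => rw [← hdm]
      ring
    have h4 : q * m + c₂ - 1 = q * (m + c₂ / q) + (c₂ % q - 1) := by omega
    rw [h2, h4, h3, hg _ _ hγ2, hg _ _ (by omega)] at h1
    rw [hκ]
    have h5 : g m - g (m - 1) = (g m - g (m - 1) - g (q - 1)) + g (q - 1) := by abel
    rw [h5, ← h1]
    abel
  have E3 : ∀ m, m ≤ q → g m = m • κ := by
    intro m
    induction m with
    | zero => intro _; simp [hg.zero hq]
    | succ m ih =>
      intro hm
      have h1 := E2 (m + 1) (by omega) hm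
      rw [Nat.add_sub_cancel] at h1
      rw [succ_nsmul, ← ih (by omega), ← h1]
      abel
  have h1 : g 1 = κ := by simpa using E3 1 (by omega)
  have hqκ : q • κ = κ := by
    rw [← E3 q le_rfl, ← h1]
    have := hg.mul hq 1
    rwa [mul_one] at this
  rw [h1]
  induction n using Nat.strong_induction_on with
  | _ n ih =>
    rcases Nat.eq_zero_or_pos n with rfl | hn
    · simp [hg.zero hq]
    · have h5 : q * (n / q) + n % q = n := Nat.div_add_mod _ _
      have h6 : n % q < q := Nat.mod_lt _ (by omega)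
      have h7 : n / q < n := Nat.div_lt_self hn (by omega)
      calc g n = g (q * (n / q) + n % q) := by rw [h5]
        _ = g (n / q) + g (n % q) := hg _ _ h6
        _ = (n / q) • κ + (n % q) • κ := by rw [ih _ h7, E3 _ h6.le]
        _ = (n / q) • (q • κ) + (n % q) • κ := by rw [hqκ]
        _ = n • κ := by
            rw [← mul_nsmul', ← add_nsmul, mul_comm, h5]

variable {G : Type*} [AddCommGroup G] [Finite G] {q : ℕ} {f : ℕ → G}

/-- vectors of values in degree `J`, with vanishing lower degrees -/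
def S (f : ℕ → G) {ι : Type*} (c : ι → ℕ) (J B : ℕ) (g : ι → G) : Prop :=
  ∃ v, (∀ c ≤ B, ∀ j, 1 ≤ j → j < J → f (c * v ^ j) = 0) ∧ ∀ i, f (c i * v ^ J) = g i

theorem S_anti {ι : Type*} {c : ι → ℕ} {J B B' : ℕ} {g : ι → G} (h : S f c J B g)
    (hB : B' ≤ B) : S f c J B' g := by
  obtain ⟨v, h1, h2⟩ := h
  exact ⟨v, fun c hc => h1 c (hc.trans hB), h2⟩

/-- the composition of two numbers -/
theorem compose (hq : 2 ≤ q) (hf : SA q f) (z v : ℕ) (B J : ℕ)
    (hv : ∀ c ≤ B * (2 ^ J * (z + 1) ^ J), ∀ j, 1 ≤ j → j < J → f (c * v ^ j) = 0) :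
    ∃ L₁, ∀ L ≥ L₁, (∀ c ≤ B, ∀ j < J, f (c * (z + q ^ L * v) ^ j) = f (c * z ^ j)) ∧
      ∀ c ≤ B, 1 ≤ J → f (c * (z + q ^ L * v) ^ J) = f (c * z ^ J) + f (c * v ^ J) := by
  obtain ⟨L₁, hL₁⟩ := exists_pow_gt hq (B * (2 ^ J * (v + 1) ^ J) * (z + 1) ^ J)
  refine ⟨L₁, fun L hL => ?_⟩
  have hr : ∀ c ≤ B, ∀ j ≤ J, f (c * (z + q ^ L * v) ^ j) =
      T v (fun c j => f (c * z ^ j)) c j := fun c hc j hj =>
    realize hq hf c z v L j (fun l hl => lt_of_le_of_lt (block_le hc hj hl) (hL₁ L hL))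
  have hterm : ∀ c ≤ B, ∀ j ≤ J, ∀ l, l + 1 ≤ j → l + 1 < J →
      f (c * j.choose (l + 1) * v ^ (l + 1) * z ^ (j - (l + 1))) = 0 := by
    intro c hc j hj l hl hlJ
    rw [show c * j.choose (l + 1) * v ^ (l + 1) * z ^ (j - (l + 1)) =
      (c * j.choose (l + 1) * z ^ (j - (l + 1))) * v ^ (l + 1) by ring]
    refine hv _ ?_ _ (by omega) hlJ
    have h1 : j.choose (l + 1) ≤ 2 ^ J :=
      (Nat.choose_le_two_pow j _).trans (Nat.pow_le_pow_right (by norm_num) hj)
    have h2 : z ^ (j - (l + 1)) ≤ (z + 1) ^ J :=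
      (Nat.pow_le_pow_left (by omega) _).trans (Nat.pow_le_pow_right (by omega) (by omega))
    calc _ ≤ B * 2 ^ J * (z + 1) ^ J := by gcongr
      _ = _ := by ring
  constructor
  · intro c hc j hj
    rw [hr c hc j hj.le, T_succ, sum_eq_zero (fun l hl => ?_), add_zero]
    have hl' : l < j := mem_range.mp hl
    exact hterm c hc j hj.le l (by omega) (by omega)
  · intro c hc hJ
    obtain ⟨i, rfl⟩ : ∃ i, J = i + 1 := ⟨J - 1, by omega⟩
    rw [hr c hc _ le_rfl, T_succ, sum_range_succ, sum_eq_zero (fun l hl => ?_), zero_add]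
    · simp
    · have hl' : l < i := mem_range.mp hl
      exact hterm c hc (i + 1) le_rfl l (by omega) (by omega)

/-- the group of the values -/
def W (hq : 2 ≤ q) (hf : SA q f) {ι : Type*} [Finite ι] (c : ι → ℕ) (J : ℕ) (hJ : 1 ≤ J) :
    AddSubgroup (ι → G) where
  carrier := {g | ∀ B, S f c J B g}
  zero_mem' := fun B => ⟨0, fun c _ j hj _ => by rw [zero_pow (by omega), mul_zero, hf.zero hq],
    fun i => by rw [zero_pow (by omega), mul_zero, hf.zero hq]; rfl⟩
  add_mem' := by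
    intro g g' hg hg' B
    obtain ⟨E, hE⟩ := (Set.finite_range c).bddAbove
    obtain ⟨v, h1, h2⟩ := hg (B + E)
    obtain ⟨w, h3, h4⟩ := hg' ((B + E) * (2 ^ J * (v + 1) ^ J))
    obtain ⟨L₁, hL⟩ := compose hq hf v w (B + E) J h3
    obtain ⟨h5, h6⟩ := hL L₁ le_rfl
    refine ⟨v + q ^ L₁ * w, fun c hc j hj1 hj => ?_, fun i => ?_⟩
    · rw [h5 c (by omega) j hj, h1 c (by omega) j hj1 hj]
    · have hi : c i ≤ E := hE ⟨i, rfl⟩
      rw [h6 _ (by omega) hJ, h2, h4]
      rfl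
  neg_mem' := by
    intro g hg
    have hz : ∀ B, S f c J B (0 : ι → G) := fun B => ⟨0, fun c _ j hj _ => by
      rw [zero_pow (by omega), mul_zero, hf.zero hq],
      fun i => by rw [zero_pow (by omega), mul_zero, hf.zero hq]; rfl⟩
    have hadd : ∀ g g' : ι → G, (∀ B, S f c J B g) → (∀ B, S f c J B g') →
        ∀ B, S f c J B (g + g') := by
      intro g g' hg hg' B
      obtain ⟨E, hE⟩ := (Set.finite_range c).bddAbove
      obtain ⟨v, h1, h2⟩ := hg (B + E)
      obtain ⟨w, h3, h4⟩ := hg' ((B + E) * (2 ^ J * (v + 1) ^ J))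
      obtain ⟨L₁, hL⟩ := compose hq hf v w (B + E) J h3
      obtain ⟨h5, h6⟩ := hL L₁ le_rfl
      refine ⟨v + q ^ L₁ * w, fun c hc j hj1 hj => ?_, fun i => ?_⟩
      · rw [h5 c (by omega) j hj, h1 c (by omega) j hj1 hj]
      · have hi : c i ≤ E := hE ⟨i, rfl⟩
        rw [h6 _ (by omega) hJ, h2, h4]
        rfl
    have hn : ∀ n : ℕ, ∀ B, S f c J B (n • g) := by
      intro n
      induction n with
      | zero => rw [zero_nsmul]; exact hz
      | succ n ih => rw [succ_nsmul]; exact hadd _ _ ih hg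
    have hcard : 1 ≤ Nat.card G := Nat.card_pos
    have h0 : (Nat.card G - 1) • g = -g := by
      rw [eq_neg_iff_add_eq_zero, ← succ_nsmul, show Nat.card G - 1 + 1 = Nat.card G by omega]
      funext i
      show Nat.card G • g i = 0
      exact card_nsmul_eq_zero' 
    show ∀ B, S f c J B (-g)
    rw [← h0]
    exact hn _

end Pool.Agent.H53.QA
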