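import Pool.Agent.H53.QA.Core

set_option autoImplicit false

open Finset

namespace Pool.Agent.H53.QA

theorem bern (x y J : ℕ) (hJ : 1 ≤ J) : (x + y) ^ J ≤ x ^ J + J * y * (x + y) ^ (J - 1) := by
  induction J, hJ using Nat.le_induction with
  | base => simp
  | succ J hJ ih =>
    have h1 : (x + y) ^ J = (x + y) ^ (J - 1) * (x + y) := by
      rw [← pow_succ]
      congr 1
      omega
    calc (x + y) ^ (J + 1) = (x + y) ^ J * x + y * (x + y) ^ J := by ring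
      _ ≤ (x ^ J + J * y * (x + y) ^ (J - 1)) * x + y * (x + y) ^ J := by gcongr
      _ = x ^ (J + 1) + J * y * ((x + y) ^ (J - 1) * x) + y * (x + y) ^ J := by ring
      _ ≤ x ^ (J + 1) + J * y * ((x + y) ^ (J - 1) * (x + y)) + y * (x + y) ^ J := by
          gcongr
          omega
      _ = x ^ (J + 1) + (J + 1) * y * (x + y) ^ (J + 1 - 1) := by
          rw [← h1, Nat.add_sub_cancel]; ring

theorem approx {q : ℕ} (hq : 2 ≤ q) (c u J Q R : ℕ) (hc : 1 ≤ c) (hu : 1 ≤ u) (hJ : 1 ≤ J)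
    (hQ : 1 ≤ Q) : ∃ κ s, u * (q ^ κ) ^ J ≤ c * (1 + Q * (s + 2)) ^ J ∧
      c * (1 + Q * (s + 1)) ^ J < u * (q ^ κ) ^ J ∧
      1 + Q * (s + 2) + 1 ≤ (u + Q + 1) * q ^ κ ∧
      R * (1 + Q * (s + 2) + 1) ^ (J - 1) < (q ^ κ) ^ J := by
  obtain ⟨κ, hκ⟩ := exists_pow_gt hq (c * (1 + Q) ^ J + R * (u + Q + 1) ^ (J - 1))
  have hX := hκ κ le_rfl
  set X := q ^ κ with hXdef
  have hX1 : 1 ≤ X := Nat.one_le_pow _ _ (by omega)
  have hXJ : X ≤ X ^ J := Nat.le_self_pow (by omega) X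
  have hex : ∃ s, u * X ^ J ≤ c * (1 + Q * s) ^ J := by
    refine ⟨u * X, ?_⟩
    calc u * X ^ J ≤ u ^ J * X ^ J := Nat.mul_le_mul_right _ (Nat.le_self_pow (by omega) u)
      _ = (u * X) ^ J := (mul_pow _ _ _).symm
      _ ≤ (1 + Q * (u * X)) ^ J := Nat.pow_le_pow_left
          (le_trans (Nat.le_mul_of_pos_left _ hQ) (Nat.le_add_left _ 1)) J
      _ ≤ c * (1 + Q * (u * X)) ^ J := Nat.le_mul_of_pos_left _ hc
  classical
  let s := Nat.find hex
  have hs1 : u * X ^ J ≤ c * (1 + Q * s) ^ J := Nat.find_spec hex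
  have hs2 : ∀ m < s, c * (1 + Q * m) ^ J < u * X ^ J := fun m hm => by
    have := Nat.find_min hex hm
    omega
  have hsmall : c * (1 + Q * 1) ^ J < u * X ^ J := by
    have h1 : X ^ J ≤ u * X ^ J := Nat.le_mul_of_pos_left _ hu
    rw [mul_one]
    omega
  have hs3 : 2 ≤ s := by
    by_contra hcon
    have h1 : 1 + Q * s ≤ 1 + Q * 1 := by
      have : s ≤ 1 := by omega
      gcongr
    have h2 : c * (1 + Q * s) ^ J ≤ c * (1 + Q * 1) ^ J :=
      Nat.mul_le_mul_left _ (Nat.pow_le_pow_left h1 J)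
    omega
  obtain ⟨m, hm⟩ : ∃ m, s = m + 2 := ⟨s - 2, by omega⟩
  rw [hm] at hs1
  have hs4 := hs2 (m + 1) (by omega)
  have h5 : 1 + Q * (m + 1) < u * X := by
    by_contra hcon
    push Not at hcon
    have h6 : (u * X) ^ J ≤ (1 + Q * (m + 1)) ^ J := Nat.pow_le_pow_left hcon J
    have h7 : u * X ^ J ≤ (u * X) ^ J := by
      rw [mul_pow]
      exact Nat.mul_le_mul_right _ (Nat.le_self_pow (by omega) u)
    have h8 : (1 + Q * (m + 1)) ^ J ≤ c * (1 + Q * (m + 1)) ^ J := Nat.le_mul_of_pos_left _ hc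
    omega
  have h9 : 1 + Q * (m + 2) + 1 ≤ (u + Q + 1) * X := by nlinarith
  refine ⟨κ, m, hs1, hs4, h9, ?_⟩
  calc R * (1 + Q * (m + 2) + 1) ^ (J - 1) ≤ R * ((u + Q + 1) * X) ^ (J - 1) := by gcongr
    _ = (R * (u + Q + 1) ^ (J - 1)) * X ^ (J - 1) := by rw [mul_pow]; ring
    _ < X * X ^ (J - 1) := Nat.mul_lt_mul_of_pos_right (by omega) (by positivity)
    _ = X ^ J := by
        rw [← pow_succ']
        congr 1
        omega

variable {G : Type*} [AddCommGroup G] {q : ℕ} {f : ℕ → G}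

theorem moves {e : ℕ} (he : ∀ g : G, e • g = 0) (he1 : 1 ≤ e) (hq : 2 ≤ q) (hf : SA q f)
    (J B c u : ℕ) (hJ : 1 ≤ J) (hc : 1 ≤ c) (hcB : c ≤ B) (hu : 1 ≤ u) : ∃ v w,
      (∀ c ≤ B, ∀ j, 1 ≤ j → j < J → f (c * v ^ j) = 0) ∧
      (∀ c ≤ B, ∀ j, 1 ≤ j → j < J → f (c * w ^ j) = 0) ∧
      f (c * v ^ J) = f (u + c * J) - f u - f (c * J) ∧
      f (c * w ^ J) = f (u - 1 + c * J) - f (u - 1) - f (c * J) ∧
      ∀ c' ≤ B, ¬ c ∣ c' * u → f (c' * v ^ J) = f (c' * w ^ J) := by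
  obtain ⟨R, hR⟩ := core he he1 hq hf J B hJ
  obtain ⟨L', hL'⟩ := exists_pow_gt hq (B * u + B * J)
  have hL := hL' L' le_rfl
  set Q := q ^ L' with hQ
  have hQ1 : 1 ≤ Q := Nat.one_le_pow _ _ (by omega)
  set W := (u + Q + 1) ^ J with hW
  obtain ⟨κ, s, h1, h2, h3, h4⟩ := approx hq c u J Q
    (R * (W + 1) + B * (c * (J * (2 * Q + 1)))) hc hu hJ hQ1
  set X := q ^ κ with hX
  have hpow1 : 1 ≤ (1 + Q * (s + 2) + 1) ^ (J - 1) := Nat.one_le_pow _ _ (by omega)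
  -- the difference
  set D := c * (J * (2 * Q + 1)) * (1 + Q * (s + 2) + 1) ^ (J - 1) with hD
  have hF3 : c * (1 + Q * (s + 2) + 1) ^ J ≤ c * (1 + Q * s) ^ J + D := by
    have h5 := bern (1 + Q * s) (2 * Q + 1) J hJ
    rw [show 1 + Q * s + (2 * Q + 1) = 1 + Q * (s + 2) + 1 by ring] at h5
    calc c * (1 + Q * (s + 2) + 1) ^ J ≤ c * ((1 + Q * s) ^ J +
          J * (2 * Q + 1) * (1 + Q * (s + 2) + 1) ^ (J - 1)) := Nat.mul_le_mul_left _ h5
      _ = _ := by rw [hD]; ring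
  have hF4 : B * D ≤ X ^ J := by
    refine le_of_lt (lt_of_le_of_lt ?_ h4)
    rw [hD]
    calc B * (c * (J * (2 * Q + 1)) * (1 + Q * (s + 2) + 1) ^ (J - 1))
        = (0 + B * (c * (J * (2 * Q + 1)))) * (1 + Q * (s + 2) + 1) ^ (J - 1) := by ring
      _ ≤ _ := by gcongr; exact Nat.zero_le _
  have hD1 : D ≤ X ^ J := le_trans (Nat.le_mul_of_pos_left D (by omega)) hF4
  have hbig : ∀ a₀, a₀ ≤ 1 + Q * (s + 2) →
      (a₀ + 1) ^ J ≤ W * X ^ J ∧ R * (W + (a₀ + 1) ^ (J - 1)) < X ^ J := by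
    intro a₀ ha₀
    constructor
    · calc (a₀ + 1) ^ J ≤ ((u + Q + 1) * X) ^ J := Nat.pow_le_pow_left (by omega) J
        _ = W * X ^ J := mul_pow _ _ _
    · refine lt_of_le_of_lt ?_ h4
      calc R * (W + (a₀ + 1) ^ (J - 1)) ≤ R * (W + (1 + Q * (s + 2) + 1) ^ (J - 1)) := by gcongr
        _ ≤ R * (W * (1 + Q * (s + 2) + 1) ^ (J - 1) + (1 + Q * (s + 2) + 1) ^ (J - 1)) := by
            gcongr
            exact Nat.le_mul_of_pos_right _ hpow1
        _ = (R * (W + 1) + 0) * (1 + Q * (s + 2) + 1) ^ (J - 1) := by ring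
        _ ≤ _ := by gcongr; exact Nat.zero_le _
  have hss : 1 + Q * s ≤ 1 + Q * (s + 2) := by gcongr; omega
  obtain ⟨v, hv1, hv2⟩ := hR (1 + Q * (s + 2)) κ W L' ⟨s + 2, rfl⟩ (hbig _ le_rfl).1
    (hbig _ le_rfl).2
  obtain ⟨w, hw1, hw2⟩ := hR (1 + Q * s) κ W L' ⟨s, rfl⟩ (hbig _ hss).1 (hbig _ hss).2
  simp only [← hX] at hv2 hw2
  have hlow : c * (1 + Q * s) ^ J ≤ u * X ^ J :=
    (Nat.mul_le_mul_left c (Nat.pow_le_pow_left (show 1 + Q * s ≤ 1 + Q * (s + 1) by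
      gcongr; omega) J)).trans h2.le
  have hup : u * X ^ J ≤ c * (1 + Q * (s + 2) + 1) ^ J :=
    h1.trans (Nat.mul_le_mul_left c (Nat.pow_le_pow_left (by omega) J))
  have hBu : u ≤ B * u := Nat.le_mul_of_pos_left _ (by omega)
  have hcJ : c * J ≤ B * J := Nat.mul_le_mul_right J hcB
  refine ⟨v, w, hv1, hw1, ?_, ?_, ?_⟩
  · refine hv2 c hcB u h1 ?_ (by omega)
    rw [Nat.succ_mul]
    omega
  · refine hw2 c hcB (u - 1) ?_ ?_ (by omega)
    · have h6 : (u - 1) * X ^ J + X ^ J = u * X ^ J := by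
        rw [← Nat.succ_mul]
        congr 1
        omega
      omega
    · rw [show u - 1 + 1 = u by omega]
      refine le_trans (Nat.mul_le_mul_left c (Nat.pow_le_pow_left ?_ J)) h2.le
      nlinarith
  · intro c' hc' hdvd
    have hmod : c * (c' * u / c) + c' * u % c = c' * u := Nat.div_add_mod _ _
    have hs1 : 1 ≤ c' * u % c := by
      by_contra hcon
      exact hdvd (Nat.dvd_of_mod_eq_zero (by omega))
    have hs2 : c' * u % c < c := Nat.mod_lt _ (by omega)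
    set t := c' * u / c with ht
    have htle : t ≤ B * u := (Nat.div_le_self _ _).trans (Nat.mul_le_mul_right u hc')
    have hcJ' : c' * J ≤ B * J := Nat.mul_le_mul_right J hc'
    have hc'D : c' * D ≤ X ^ J := (Nat.mul_le_mul_right D hc').trans hF4
    -- both numbers
    have hboth : ∀ a₀, 1 + Q * s ≤ a₀ → a₀ ≤ 1 + Q * (s + 2) →
        t * X ^ J ≤ c' * a₀ ^ J ∧ c' * (a₀ + 1) ^ J ≤ (t + 1) * X ^ J := by
      intro a₀ ha1 ha2
      constructor
      · refine le_of_mul_le_mul_left ?_ (show 0 < c by omega)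
        have h7 : u * X ^ J ≤ c * a₀ ^ J + D :=
          (hup.trans hF3).trans (Nat.add_le_add_right
            (Nat.mul_le_mul_left c (Nat.pow_le_pow_left ha1 J)) D)
        have h8 : c' * (u * X ^ J) ≤ c' * (c * a₀ ^ J + D) := Nat.mul_le_mul_left c' h7
        have h9 : c' * (u * X ^ J) = c * (t * X ^ J) + (c' * u % c) * X ^ J := by
          calc c' * (u * X ^ J) = (c' * u) * X ^ J := by ring
            _ = (c * t + c' * u % c) * X ^ J := by rw [hmod]
            _ = _ := by ring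
        have h10 : X ^ J ≤ (c' * u % c) * X ^ J := Nat.le_mul_of_pos_left _ hs1
        have h11 : c' * (c * a₀ ^ J + D) = c * (c' * a₀ ^ J) + c' * D := by ring
        omega
      · refine le_of_mul_le_mul_left ?_ (show 0 < c by omega)
        have h7 : c * (a₀ + 1) ^ J ≤ u * X ^ J + D := by
          calc c * (a₀ + 1) ^ J ≤ c * (1 + Q * (s + 2) + 1) ^ J :=
                Nat.mul_le_mul_left c (Nat.pow_le_pow_left (by omega) J)
            _ ≤ _ := hF3.trans (Nat.add_le_add_right hlow D)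
        have h8 : c' * (c * (a₀ + 1) ^ J) ≤ c' * (u * X ^ J + D) := Nat.mul_le_mul_left c' h7
        have h9 : c' * (u * X ^ J) = c * (t * X ^ J) + (c' * u % c) * X ^ J := by
          calc c' * (u * X ^ J) = (c' * u) * X ^ J := by ring
            _ = (c * t + c' * u % c) * X ^ J := by rw [hmod]
            _ = _ := by ring
        have h10 : (c' * u % c) * X ^ J + X ^ J ≤ c * X ^ J := by
          rw [← Nat.succ_mul]
          exact Nat.mul_le_mul_right _ hs2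
        have h11 : c' * (u * X ^ J + D) = c' * (u * X ^ J) + c' * D := by ring
        have h12 : c' * (c * (a₀ + 1) ^ J) = c * (c' * (a₀ + 1) ^ J) := by ring
        have h13 : c * ((t + 1) * X ^ J) = c * (t * X ^ J) + c * X ^ J := by ring
        omega
    rw [hv2 c' hc' t (hboth _ hss le_rfl).1 (hboth _ hss le_rfl).2 (by omega),
      hw2 c' hc' t (hboth _ le_rfl hss).1 (hboth _ le_rfl hss).2 (by omega)]

end Pool.Agent.H53.QA
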