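import Pool.Agent.H53.QA.Full

/-! The lemmas `ev`, `evH`, `tay` and `lead_pos` are from the library module
`Pool.Graph.R_pool_sql_team_39128cda.Results.MP_b1aeef_nt.Maximal`. -/

set_option autoImplicit false

open Finset Polynomial

namespace Pool.Agent.H53.QA

theorem ev (Q : ℤ[X]) (h : 0 ≤ Q.leadingCoeff) :
    ∀ᶠ n : ℕ in Filter.atTop, 0 ≤ Q.eval (n : ℤ) := by
  by_cases d : 0 < Q.degree
  · have i : Function.Injective (Int.castRingHom ℝ) := Int.cast_injective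
    have := (tendsto_atTop_of_leadingCoeff_nonneg (Q.map (Int.castRingHom ℝ))
      (by rwa [degree_map_eq_of_injective i]) (by
        rw [leadingCoeff_map_of_injective i]; simpa using h)).comp tendsto_natCast_atTop_atTop
    filter_upwards [this.eventually_ge_atTop 0] with n hn
    have e := eval_map_apply (Int.castRingHom ℝ) (p := Q) (n : ℤ)
    simp only [eq_intCast, Int.cast_natCast] at e
    rw [Function.comp, e] at hn
    exact_mod_cast hn
  · rw [eq_C_of_degree_le_zero (not_lt.mp d)] at h ⊢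
    rw [leadingCoeff_C] at h
    exact .of_forall fun n => by rwa [eval_C]

theorem evH (Q : ℤ[X]) (h : 0 ≤ Q.leadingCoeff) : ∀ᶠ n : ℕ in Filter.atTop,
    ∀ j, 0 ≤ (hasseDeriv j Q).eval (n : ℤ) := by
  have : ∀ᶠ n : ℕ in Filter.atTop, ∀ j : Fin (Q.natDegree + 1),
      0 ≤ (hasseDeriv j Q).eval (n : ℤ) :=
    Filter.eventually_all.mpr fun j => ev _ (by
      rw [leadingCoeff, natDegree_hasseDeriv, hasseDeriv_coeff, Nat.sub_add_cancel (by omega)]
      exact mul_nonneg (by simp) h)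
  filter_upwards [this] with n hn j
  by_cases c : j < Q.natDegree + 1
  · simpa using hn ⟨j, c⟩
  · simp [hasseDeriv_eq_zero_of_lt_natDegree Q j (by omega)]

theorem tay (Q : ℤ[X]) {n : ℕ} (h : Q.natDegree < n) (x y : ℤ) :
    Q.eval (y + x) = ∑ j ∈ range n, (hasseDeriv j Q).eval x * y ^ j := by
  rw [← taylor_eval, eval_eq_sum_range' (by rwa [natDegree_taylor])]
  simp only [taylor_coeff]

theorem lead_pos (P : ℤ[X]) (hd : 1 ≤ P.natDegree) (h0 : ∀ n : ℕ, 0 ≤ P.eval (n : ℤ)) :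
    0 < P.leadingCoeff := by
  have P0 : P ≠ 0 := by rintro rfl; simp at hd
  by_contra n
  have c : (-P - 1).leadingCoeff = -P.leadingCoeff := by
    rw [leadingCoeff_sub_of_degree_lt, leadingCoeff_neg]
    simpa using natDegree_pos_iff_degree_pos.mp (by omega)
  obtain ⟨m, hm⟩ := (ev (-P - 1) (by omega)).exists
  have := h0 m
  simp at hm
  omega

theorem eval_top (P : ℤ[X]) (x : ℤ) : (hasseDeriv P.natDegree P).eval x = P.leadingCoeff := by
  rw [hasseDeriv_natDegree_eq_C, eval_C]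

theorem eval_second (P : ℤ[X]) (hd : 1 ≤ P.natDegree) (x : ℤ) :
    (hasseDeriv (P.natDegree - 1) P).eval x =
      P.coeff (P.natDegree - 1) + (P.natDegree * P.leadingCoeff) * x := by
  have h1 : (hasseDeriv (P.natDegree - 1) P).natDegree < 2 := by
    rw [natDegree_hasseDeriv]
    omega
  rw [eval_eq_sum_range' h1, sum_range_succ, sum_range_succ, sum_range_zero]
  simp only [hasseDeriv_coeff, zero_add, pow_zero, mul_one, pow_one, Nat.choose_self,
    Nat.cast_one, one_mul]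
  rw [show 1 + (P.natDegree - 1) = P.natDegree by omega, leadingCoeff]
  congr 3
  obtain ⟨m, hm⟩ : ∃ m, P.natDegree = m + 1 := ⟨P.natDegree - 1, by omega⟩
  rw [hm, Nat.add_sub_cancel, Nat.choose_succ_self_right]

variable {G : Type*} [AddCommGroup G] [Finite G] {q : ℕ} {f : ℕ → G}

theorem words (hq : 2 ≤ q) (hf : SA q f) (P : ℤ[X]) (hd : 2 ≤ P.natDegree)
    (hP : ∀ n : ℕ, 0 ≤ P.eval (n : ℤ)) (k : ℕ) (w : Fin k → G) (m : ℕ)
    (hw : ∀ i : Fin k, w i - P.eval ((m + i : ℕ) : ℤ) • f 1 ∈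
      AddSubgroup.closure (Set.range fun n : ℕ => f n - n • f 1)) (N D : ℕ) (hD : 1 ≤ D) :
    ∃ n ≥ N, n ≡ m [MOD D] ∧ ∀ i : Fin k, f (P.eval ((n + i : ℕ) : ℤ)).toNat = w i := by
  have hl := lead_pos P (by omega) hP
  set H := AddSubgroup.closure (Set.range fun n : ℕ => f n - n • f 1) with hH
  have hfH : ∀ n : ℕ, f n - n • f 1 ∈ H := fun n => AddSubgroup.subset_closure ⟨n, rfl⟩
  set e := Nat.card G with he
  have he1 : 1 ≤ e := Nat.card_pos
  have hez : ∀ x : G, e • x = 0 := fun x => card_nsmul_eq_zero'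
  set E₀ := D * e with hE₀
  have hE₀1 : 1 ≤ E₀ := Nat.mul_pos hD he1
  set h := P.natDegree with hh
  obtain ⟨x₀, hx₀⟩ := Filter.eventually_atTop.mp (evH P hl.le)
  -- the leading coefficient
  obtain ⟨a, ha⟩ : ∃ a : ℕ, P.leadingCoeff = a := ⟨P.leadingCoeff.toNat, by omega⟩
  have ha1 : 1 ≤ a := by omega
  let Cf : ℕ → ℕ → ℕ := fun j x => ((hasseDeriv j P).eval (x : ℤ)).toNat
  have hCf : ∀ x ≥ x₀, ∀ j, ((Cf j x : ℕ) : ℤ) = (hasseDeriv j P).eval (x : ℤ) :=
    fun x hx j => Int.toNat_of_nonneg (hx₀ x hx j)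
  have hCtop : ∀ x, Cf h x = a := by
    intro x
    show ((hasseDeriv h P).eval (x : ℤ)).toNat = a
    rw [hh, eval_top, ha]
    rfl
  -- the second coefficient
  set α := h * a with hα
  have hα1 : 1 ≤ α := Nat.mul_pos (by omega) ha1
  have hCsec : ∀ x ≥ x₀, ((Cf (h - 1) x : ℕ) : ℤ) = P.coeff (h - 1) + α * x := by
    intro x hx
    rw [hCf x hx, hh, eval_second P (by omega), ha, ← hh, hα]
    push_cast
    ring
  -- the base point
  set n₁ := m + E₀ * (x₀ + (P.coeff (h - 1)).natAbs + 1 + N) with hn₁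
  have hn₁' : x₀ + (P.coeff (h - 1)).natAbs + 1 + N ≤ n₁ := by
    rw [hn₁]
    exact (Nat.le_mul_of_pos_left _ hE₀1).trans (Nat.le_add_left _ _)
  set γ := Cf (h - 1) n₁ with hγ
  have hγ1 : 1 ≤ γ := by
    have h1 := hCsec n₁ (by omega)
    have h2 : (1 : ℤ) * n₁ ≤ α * n₁ := by
      have : (1 : ℤ) ≤ α := by exact_mod_cast hα1
      exact mul_le_mul_of_nonneg_right this (by positivity)
    have h3 : -((P.coeff (h - 1)).natAbs : ℤ) ≤ P.coeff (h - 1) := by omega
    have h4 : ((x₀ + (P.coeff (h - 1)).natAbs + 1 + N : ℕ) : ℤ) ≤ n₁ := by exact_mod_cast hn₁'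
    push_cast at h4
    omega
  set F := E₀ ^ (h - 1) with hF
  have hF1 : 1 ≤ F := Nat.one_le_pow _ _ (by omega)
  obtain ⟨B, hB⟩ := exists_pow_gt hq ((γ + α * k) * F * (h - 1))
  have hB' := hB B le_rfl
  set s := q ^ (2 * B + 2) * (α * k) + 1 with hs
  set n₀ := n₁ + E₀ * (q ^ B * s) with hn₀
  have hn₀m : ∃ t, n₀ = m + E₀ * t := ⟨_, by rw [hn₀, hn₁, add_assoc, ← mul_add]⟩
  have hval : ∀ i : ℕ, Cf (h - 1) (n₀ + i) * F =
      (γ + α * i) * F + α * (E₀ * (q ^ B * s)) * F := by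
    intro i
    have h1 := hCsec (n₀ + i) (by omega)
    have h2 := hCsec n₁ (by omega)
    have h3 : ((n₀ + i : ℕ) : ℤ) = n₁ + E₀ * (q ^ B * s) + i := by rw [hn₀]; push_cast; ring
    rw [h3] at h1
    have h4 : ((Cf (h - 1) (n₀ + i) : ℕ) : ℤ) =
        ((γ + α * i + α * (E₀ * (q ^ B * s)) : ℕ) : ℤ) := by
      rw [h1]
      push_cast
      rw [hγ, h2]
      ring
    have h5 : Cf (h - 1) (n₀ + i) = γ + α * i + α * (E₀ * (q ^ B * s)) := by exact_mod_cast h4
    rw [h5]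
    ring
  have hqB : 0 < q ^ B := by positivity
  -- a bound for all coefficients
  obtain ⟨E, hE⟩ : ∃ E, ∀ j ≤ h, ∀ i : Fin k, Cf j (n₀ + i) * E₀ ^ j ≤ E := by
    obtain ⟨E, hE⟩ := (Set.finite_range
      (fun p : Fin (h + 1) × Fin k => Cf p.1 (n₀ + p.2) * E₀ ^ (p.1 : ℕ))).bddAbove
    exact ⟨E, fun j hj i => hE ⟨(⟨j, by omega⟩, i), rfl⟩⟩
  set a' := a * E₀ ^ h with ha'
  have ha'1 : 1 ≤ a' := Nat.mul_pos ha1 (by positivity)
  -- first stage
  obtain ⟨v, hv1, hv2⟩ := full hq hf (fun i : Fin k => Cf (h - 1) (n₀ + i) * F) (h - 1)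
    (by omega) B
    (fun i hdvd => by
      simp only [hval] at hdvd
      have h1 : ((γ + α * i) * F + α * (E₀ * (q ^ B * s)) * F) * (h - 1) =
          (γ + α * i) * F * (h - 1) + q ^ B * (α * E₀ * s * F * (h - 1)) := by ring
      rw [h1] at hdvd
      have h2 : q ^ B ∣ (γ + α * i) * F * (h - 1) :=
        (Nat.dvd_add_left (Dvd.intro _ rfl)).mp hdvd
      have h3 : 0 < (γ + α * i) * F * (h - 1) :=
        Nat.mul_pos (Nat.mul_pos (by omega) hF1) (by omega)
      have h4 := Nat.le_of_dvd h3 h2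
      have h5 : (γ + α * i) * F * (h - 1) ≤ (γ + α * k) * F * (h - 1) := by
        have := i.2
        gcongr
      omega)
    (fun i j hij => by
      simp only [hval]
      intro heq
      have h1 : (γ + α * (i : ℕ)) * F = (γ + α * (j : ℕ)) * F := by omega
      have h2 := Nat.eq_of_mul_eq_mul_right hF1 h1
      have h3 : α * (i : ℕ) = α * (j : ℕ) := by omega
      exact hij (Fin.ext (Nat.eq_of_mul_eq_mul_left (by omega) h3)))
    (fun i j hij => by
      simp only [hval]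
      have h1 : (γ + α * (i : ℕ)) * F ≤ γ * F + α * k * F := by
        rw [← add_mul]
        have := i.2
        gcongr
      have h2 : (γ + α * (j : ℕ)) * F ≤ γ * F + α * k * F := by
        rw [← add_mul]
        have := j.2
        gcongr
      have h1' : γ * F ≤ (γ + α * (i : ℕ)) * F := Nat.mul_le_mul_right _ (Nat.le_add_right _ _)
      have h2' : γ * F ≤ (γ + α * (j : ℕ)) * F := Nat.mul_le_mul_right _ (Nat.le_add_right _ _)
      have h4 : q ^ (2 * B + 2) * (((γ + α * (i : ℕ)) * F + α * (E₀ * (q ^ B * s)) * F -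
          ((γ + α * (j : ℕ)) * F + α * (E₀ * (q ^ B * s)) * F)) +
          ((γ + α * (j : ℕ)) * F + α * (E₀ * (q ^ B * s)) * F -
          ((γ + α * (i : ℕ)) * F + α * (E₀ * (q ^ B * s)) * F))) ≤
          q ^ (2 * B + 2) * (α * k * F) := Nat.mul_le_mul_left _ (by omega)
      have h5 : s * F ≤ α * (E₀ * (q ^ B * s)) * F := by
        refine Nat.mul_le_mul_right _ ?_
        calc s ≤ q ^ B * s := Nat.le_mul_of_pos_left _ hqB
          _ ≤ E₀ * (q ^ B * s) := Nat.le_mul_of_pos_left _ hE₀1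
          _ ≤ _ := Nat.le_mul_of_pos_left _ hα1
      have h6 : s * F = q ^ (2 * B + 2) * (α * k * F) + F := by rw [hs]; ring
      omega)
    (fun i => w i - f (Cf 0 (n₀ + i)))
    (fun i => by
      have h1 := hfH (Cf 0 (n₀ + i))
      have h2 : (Cf 0 (n₀ + i)) • f 1 = P.eval ((m + i : ℕ) : ℤ) • f 1 := by
        rw [← natCast_zsmul, hCf (n₀ + i) (by omega), hasseDeriv_zero']
        obtain ⟨t, ht⟩ := hn₀m
        have h3 : (((n₀ + i : ℕ) : ℤ) - ((m + i : ℕ) : ℤ)) ∣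
            P.eval ((n₀ + i : ℕ) : ℤ) - P.eval ((m + i : ℕ) : ℤ) := sub_dvd_eval_sub _ _ _
        have h4 : (e : ℤ) ∣ (((n₀ + i : ℕ) : ℤ) - ((m + i : ℕ) : ℤ)) := by
          rw [ht, hE₀]
          exact ⟨D * t, by push_cast; ring⟩
        obtain ⟨y, hy⟩ := h4.trans h3
        rw [← sub_eq_zero, ← sub_smul, hy, mul_smul, natCast_zsmul, hez]
      have h5 := sub_mem (hw i) h1
      rw [← h2] at h5
      have h6 : w i - f (Cf 0 (n₀ + i)) = w i - (Cf 0 (n₀ + i)) • f 1 -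
          (f (Cf 0 (n₀ + i)) - (Cf 0 (n₀ + i)) • f 1) := by abel
      rw [h6]
      exact h5)
    (E + a')
  -- second stage
  obtain ⟨B', hB''⟩ := exists_pow_gt hq (a' * h)
  have hκ : - f (a' * v ^ h) ∈ H := by
    have h1 := hfH (a' * v ^ h)
    have h2 : (a' * v ^ h) • f 1 = 0 := by
      obtain ⟨i, hi⟩ : ∃ i, h = i + 1 := ⟨h - 1, by omega⟩
      rw [ha', hE₀, hi, show a * (D * e) ^ (i + 1) * v ^ (i + 1) =
        e * (a * (D * e) ^ i * D * v ^ (i + 1)) by ring, mul_nsmul, hez, nsmul_zero]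
    rw [h2, sub_zero] at h1
    exact neg_mem h1
  obtain ⟨v', hv'1, hv'2⟩ := full hq hf (fun _ : Unit => a') h (by omega) B'
    (fun _ hdvd => by
      have h1 := Nat.le_of_dvd (Nat.mul_pos ha'1 (by omega)) hdvd
      have h2 := hB'' B' le_rfl
      omega)
    (fun i j hij => absurd (Subsingleton.elim i j) hij)
    (fun i j hij => absurd (Subsingleton.elim i j) hij)
    (fun _ => - f (a' * v ^ h)) (fun _ => hκ) ((E + a') * (2 ^ h * (v + 1) ^ h))
  obtain ⟨L₁, hL₁⟩ := compose hq hf v v' (E + a') h hv'1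
  obtain ⟨hz1, hz2⟩ := hL₁ L₁ le_rfl
  set z := v + q ^ L₁ * v' with hz
  have hztop : f (a' * z ^ h) = 0 := by
    rw [hz2 a' (by omega) (by omega), hv'2 ()]
    exact add_neg_cancel _
  have hword : ∀ i : Fin k, ∑ j ∈ range (h + 1), f (Cf j (n₀ + i) * E₀ ^ j * z ^ j) = w i := by
    intro i
    obtain ⟨l, hl2⟩ : ∃ l, h = l + 2 := ⟨h - 2, by omega⟩
    rw [sum_range_succ, hCtop, ← ha', hztop, add_zero]
    rw [sum_congr rfl (g := fun j => f (Cf j (n₀ + i) * E₀ ^ j * v ^ j)) (fun j hj =>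
      hz1 _ ((hE j (mem_range.mp hj).le i).trans (Nat.le_add_right _ _)) j (mem_range.mp hj))]
    have hrange : range h = range (l + 1 + 1) := by rw [hl2]
    rw [hrange, sum_range_succ, sum_range_succ', sum_eq_zero (fun j hj => ?_), zero_add]
    · have h1 := hv2 i
      rw [hF, show h - 1 = l + 1 by omega] at h1
      rw [h1, pow_zero, pow_zero, mul_one, mul_one]
      exact add_sub_cancel _ _
    · have hj' : j < l := mem_range.mp hj
      exact hv1 _ ((hE _ (by omega) i).trans (Nat.le_add_right _ _)) _ (by omega) (by omega)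
  -- the number `n`
  obtain ⟨L, hL⟩ : ∃ L, ∀ j ≤ h, ∀ i : Fin k, Cf j (n₀ + i) * E₀ ^ j * z ^ j < q ^ L := by
    obtain ⟨L, hL⟩ := exists_pow_gt hq (E * (z + 1) ^ h)
    refine ⟨L, fun j hj i => lt_of_le_of_lt ?_ (hL L le_rfl)⟩
    have h1 : z ^ j ≤ (z + 1) ^ h :=
      (Nat.pow_le_pow_left (by omega) _).trans (Nat.pow_le_pow_right (by omega) hj)
    exact Nat.mul_le_mul (hE j hj i) h1
  refine ⟨E₀ * (q ^ L * z) + n₀, by omega, ?_, fun i => ?_⟩
  · obtain ⟨t, ht⟩ := hn₀m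
    have h1 : E₀ * (q ^ L * z) + n₀ = m + D * (e * (q ^ L * z + t)) := by
      rw [ht, hE₀]
      ring
    rw [h1, Nat.ModEq, Nat.add_mul_mod_self_left]
  have hsum : (P.eval ((E₀ * (q ^ L * z) + n₀ + i : ℕ) : ℤ)).toNat =
      ∑ j ∈ range (h + 1), (Cf j (n₀ + i) * E₀ ^ j * z ^ j) * (q ^ L) ^ j := by
    have h1 : ((E₀ * (q ^ L * z) + n₀ + i : ℕ) : ℤ) =
        ((E₀ * (q ^ L * z) : ℕ) : ℤ) + ((n₀ + i : ℕ) : ℤ) := by
      push_cast
      ring
    rw [h1, tay P (n := h + 1) (by omega)]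
    have h2 : ∑ j ∈ range (h + 1), (hasseDeriv j P).eval ((n₀ + i : ℕ) : ℤ) *
        ((E₀ * (q ^ L * z) : ℕ) : ℤ) ^ j =
        ((∑ j ∈ range (h + 1), (Cf j (n₀ + i) * E₀ ^ j * z ^ j) * (q ^ L) ^ j : ℕ) : ℤ) := by
      rw [Nat.cast_sum]
      refine sum_congr rfl fun j _ => ?_
      rw [← hCf (n₀ + i) (by omega) j]
      push_cast
      ring
    rw [h2, Int.toNat_natCast]
  rw [hsum, hf.sum hq L (h + 1) _ (fun j hj => hL j (by omega) i)]
  exact hword i

end Pool.Agent.H53.QA
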